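import Pool.Agent.U581.LB.Stm3

/-!
# Project LB, package RS1J (helper429): the square of `r(n)/4` as a convolution
-/

set_option autoImplicit false

namespace Pool.Agent.U429.LB

open Finset ArithmeticFunction
open scoped ArithmeticFunction.Moebius ArithmeticFunction.zeta

/-! ### squares -/

theorem sq_split {m n : ℕ} (h : m.Coprime n) : IsSquare (m * n) ↔ IsSquare m ∧ IsSquare n := by
  constructor
  · rintro ⟨c, hc⟩
    have e1 : m * n = c ^ 2 := by rw [hc, sq]
    have e2 : n * m = c ^ 2 := by rw [mul_comm, e1]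
    obtain ⟨a, ha⟩ := exists_eq_pow_of_mul_eq_pow (a := m) (b := n)
      (by rw [Nat.isUnit_iff]; exact h) e1
    obtain ⟨b, hb⟩ := exists_eq_pow_of_mul_eq_pow (a := n) (b := m)
      (by rw [Nat.isUnit_iff]; exact h.symm) e2
    exact ⟨⟨a, by rw [ha, sq]⟩, ⟨b, by rw [hb, sq]⟩⟩
  · rintro ⟨h1, h2⟩
    exact h1.mul h2

theorem sq_prime_pow {p k : ℕ} (hp : p.Prime) : IsSquare (p ^ k) ↔ Even k := by
  constructor
  · rintro ⟨r, hr⟩
    obtain ⟨j, -, hj⟩ := (Nat.dvd_prime_pow hp).1 (Dvd.intro_left r hr.symm)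
    rw [hj, ← pow_add] at hr
    exact ⟨j, Nat.pow_right_injective hp.two_le hr⟩
  · rintro ⟨j, rfl⟩
    exact ⟨p ^ j, by rw [pow_add]⟩

/-- `μ(m)` at `m²` -/
def B (c : ℕ) : ℤ := if IsSquare c then μ (Nat.sqrt c) else 0

theorem B_mul {m n : ℕ} (h : m.Coprime n) : B (m * n) = B m * B n := by
  unfold B
  by_cases h1 : IsSquare m
  · by_cases h2 : IsSquare n
    · rw [if_pos h1, if_pos h2, if_pos (h1.mul h2)]
      obtain ⟨a, rfl⟩ := h1
      obtain ⟨b, rfl⟩ := h2
      have e : a * a * (b * b) = (a * b) * (a * b) := by ring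
      rw [e, Nat.sqrt_eq, Nat.sqrt_eq, Nat.sqrt_eq]
      exact isMultiplicative_moebius.map_mul_of_coprime
        (Nat.Coprime.coprime_mul_left (Nat.Coprime.coprime_mul_left_right h))
    · rw [if_neg h2, if_neg (fun h3 => h2 ((sq_split h).1 h3).2), mul_zero]
  · rw [if_neg h1, if_neg (fun h3 => h1 ((sq_split h).1 h3).1), zero_mul]

theorem B_prime_pow {p k : ℕ} (hp : p.Prime) :
    B (p ^ k) = if k = 0 then 1 else if k = 2 then -1 else 0 := by
  unfold B
  by_cases h : Even k
  · rw [if_pos ((sq_prime_pow hp).2 h)]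
    obtain ⟨j, rfl⟩ := h
    rw [pow_add, Nat.sqrt_eq]
    rcases Nat.eq_zero_or_pos j with h0 | h0
    · subst h0
      simp
    · rw [moebius_apply_prime_pow hp h0.ne', if_neg (by omega : ¬ j + j = 0)]
      by_cases h1 : j = 1
      · subst h1
        simp
      · rw [if_neg h1, if_neg (by omega)]
  · rw [if_neg (fun h3 => h ((sq_prime_pow hp).1 h3))]
    have h0 : k ≠ 0 := by
      rintro rfl
      exact h ⟨0, rfl⟩
    have h2 : k ≠ 2 := by
      rintro rfl
      exact h ⟨1, rfl⟩
    rw [if_neg h0, if_neg h2]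

/-- the integral version of `hh` -/
def hz (c : ℕ) : ℤ := if c % 2 = 1 then B c else if c % 4 = 2 then - B (c / 2) else 0

/-- as arithmetic function -/
def H : ArithmeticFunction ℤ := ⟨hz, by simp [hz]⟩

theorem H_apply (c : ℕ) : H c = hz c := rfl

theorem B_one : B 1 = 1 := by
  have := B_prime_pow (k := 0) Nat.prime_two
  simpa using this

theorem hz_odd {c : ℕ} (h : c % 2 = 1) : hz c = B c := if_pos h

theorem hz_two {c : ℕ} (h : c % 4 = 2) : hz c = - B (c / 2) := by
  unfold hz
  rw [if_neg (by omega), if_pos h]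

theorem hz_four {c : ℕ} (h : c % 4 = 0) : hz c = 0 := by
  unfold hz
  rw [if_neg (by omega), if_neg (by omega)]

theorem hz_mul_odd {m n : ℕ} (h : m.Coprime n) (hn : n % 2 = 1) : hz (m * n) = hz m * hz n := by
  have h4 : m % 4 = 1 ∨ m % 4 = 3 ∨ m % 4 = 2 ∨ m % 4 = 0 := by omega
  rw [hz_odd hn]
  rcases h4 with h4 | h4 | h4 | h4
  · rw [hz_odd (by rw [Nat.mul_mod, hn]; omega : m * n % 2 = 1), hz_odd (by omega : m % 2 = 1),
      B_mul h]
  · rw [hz_odd (by rw [Nat.mul_mod, hn]; omega : m * n % 2 = 1), hz_odd (by omega : m % 2 = 1),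
      B_mul h]
  · obtain ⟨k, hk⟩ : ∃ k, m = 2 * k := ⟨m / 2, by omega⟩
    have hk2 : k % 2 = 1 := by omega
    have e1 : m * n / 2 = k * n := by
      rw [hk, mul_assoc]
      omega
    have e2 : m / 2 = k := by omega
    have e3 : m * n % 4 = 2 := by
      have h5 : k * n % 2 = 1 := by rw [Nat.mul_mod, hn, hk2]
      rw [hk, mul_assoc]
      omega
    have e4 : k.Coprime n := by
      rw [hk] at h
      exact Nat.Coprime.coprime_mul_left h
    rw [hz_two e3, hz_two h4, e1, e2, B_mul e4]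
    ring
  · have e3 : m * n % 4 = 0 := by
      obtain ⟨k, hk⟩ : ∃ k, m = 4 * k := ⟨m / 4, by omega⟩
      rw [hk, mul_assoc]
      omega
    rw [hz_four e3, hz_four h4, zero_mul]

theorem H_mult : H.IsMultiplicative := by
  refine ⟨?_, ?_⟩
  · rw [H_apply, hz_odd (by norm_num), B_one]
  · intro m n h
    rw [H_apply, H_apply, H_apply]
    rcases Nat.mod_two_eq_zero_or_one n with hn | hn
    · have hm : m % 2 = 1 := by
        by_contra hm
        have h2 : 2 ∣ Nat.gcd m n := Nat.dvd_gcd (by omega) (by omega)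
        rw [h] at h2
        omega
      rw [mul_comm m n, hz_mul_odd h.symm hm, mul_comm]
    · exact hz_mul_odd h hn

/-! ### the functions `r0` and `r0 * r0` -/

/-- the character modulo 4 -/
def X4 : ArithmeticFunction ℤ := ⟨fun n => ZMod.χ₄ (n : ZMod 4), by simp⟩

theorem X4_apply (n : ℕ) : X4 n = ZMod.χ₄ (n : ZMod 4) := rfl

theorem X4_mult : X4.IsMultiplicative := by
  refine ⟨?_, ?_⟩
  · rw [X4_apply]
    simp
  · intro m n _
    rw [X4_apply, X4_apply, X4_apply]
    push_cast
    rw [map_mul]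

/-- `∑_{d | n} χ₄(d)` -/
noncomputable def R : ArithmeticFunction ℤ := (ζ : ArithmeticFunction ℤ) * X4

theorem R_mult : R.IsMultiplicative := isMultiplicative_zeta.natCast.mul X4_mult

theorem R_apply (n : ℕ) : R n = ∑ d ∈ n.divisors, ZMod.χ₄ (d : ZMod 4) := by
  unfold R
  rw [coe_zeta_mul_apply]
  rfl

/-- `∑_{i ≤ k} c^i` -/
def rr (c : ℤ) (k : ℕ) : ℤ := ∑ i ∈ range (k + 1), c ^ i

/-- the convolution square -/
def ss (c : ℤ) (k : ℕ) : ℤ := ∑ i ∈ range (k + 1), rr c i * rr c (k - i)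

theorem R_prime_pow {p : ℕ} (hp : p.Prime) (k : ℕ) : R (p ^ k) = rr (ZMod.χ₄ (p : ZMod 4)) k := by
  rw [R_apply, Nat.sum_divisors_prime_pow hp]
  unfold rr
  refine sum_congr rfl fun i _ => ?_
  push_cast
  rw [map_pow]

theorem conv_prime_pow {f g : ArithmeticFunction ℤ} {p : ℕ} (hp : p.Prime) (k : ℕ) :
    (f * g) (p ^ k) = ∑ i ∈ range (k + 1), f (p ^ i) * g (p ^ (k - i)) := by
  rw [ArithmeticFunction.mul_apply, Nat.sum_divisorsAntidiagonal (fun a b => f a * g b),
    Nat.sum_divisors_prime_pow hp]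
  refine sum_congr rfl fun i hi => ?_
  rw [Nat.pow_div (by have := mem_range.1 hi; omega) hp.pos]

theorem RR_prime_pow {p : ℕ} (hp : p.Prime) (k : ℕ) :
    (R * R) (p ^ k) = ss (ZMod.χ₄ (p : ZMod 4)) k := by
  rw [conv_prime_pow hp]
  unfold ss
  refine sum_congr rfl fun i _ => ?_
  rw [R_prime_pow hp, R_prime_pow hp]

/-! ### closed forms -/

theorem rr_one (k : ℕ) : rr 1 k = k + 1 := by
  unfold rr
  simp

theorem aux_one (m : ℤ) (k : ℕ) : 6 * ∑ i ∈ range (k + 1), ((i : ℤ) + 1) * (m - i) =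
    3 * m * ((k + 1) * (k + 2)) - 2 * k * ((k + 1) * (k + 2)) := by
  induction k with
  | zero => simp; ring
  | succ k ih =>
    rw [sum_range_succ, mul_add, ih]
    push_cast
    ring

theorem ss_one (k : ℕ) : 6 * ss 1 k = (k + 1) * (k + 2) * (k + 3) := by
  have h : ss 1 k = ∑ i ∈ range (k + 1), ((i : ℤ) + 1) * (((k : ℤ) + 1) - i) := by
    unfold ss
    refine sum_congr rfl fun i hi => ?_
    have hi' : i ≤ k := by have := mem_range.1 hi; omega
    rw [rr_one, rr_one, Nat.cast_sub hi']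
    ring
  rw [h, aux_one]
  ring

theorem rr_zero (k : ℕ) : rr 0 k = 1 := by
  unfold rr
  rw [sum_range_succ']
  simp

theorem ss_zero (k : ℕ) : ss 0 k = k + 1 := by
  unfold ss
  simp [rr_zero]

theorem rr_neg (k : ℕ) : rr (-1) k = if Even k then 1 else 0 := by
  induction k with
  | zero => simp [rr]
  | succ k ih =>
    unfold rr at ih ⊢
    rw [sum_range_succ, ih]
    by_cases h : Even k
    · have h1 : ¬ Even (k + 1) := by
        rw [Nat.even_add_one, not_not]
        exact h
      rw [if_pos h, if_neg h1, Odd.neg_one_pow (Nat.not_even_iff_odd.1 h1)]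
      ring
    · have h1 : Even (k + 1) := Nat.even_add_one.2 h
      rw [if_neg h, if_pos h1, Even.neg_one_pow h1]
      ring

theorem ee_sum (j : ℕ) : ∑ i ∈ range (2 * j + 1), (if Even i then (1 : ℤ) else 0) = j + 1 := by
  induction j with
  | zero =>
    rw [mul_zero, zero_add, sum_range_one, if_pos ⟨0, rfl⟩]
    simp
  | succ j ih =>
    have h1 : 2 * (j + 1) + 1 = 2 * j + 1 + 1 + 1 := by ring
    have h2 : ¬ Even (2 * j + 1) := by
      rw [Nat.not_even_iff_odd]
      exact ⟨j, rfl⟩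
    have h3 : Even (2 * j + 1 + 1) := ⟨j + 1, by ring⟩
    rw [h1, sum_range_succ, sum_range_succ, ih, if_neg h2, if_pos h3]
    push_cast
    ring

theorem ss_neg_even (j : ℕ) : ss (-1) (2 * j) = j + 1 := by
  rw [← ee_sum j]
  unfold ss
  refine sum_congr rfl fun i hi => ?_
  have hi' : i ≤ 2 * j := by have := mem_range.1 hi; omega
  rw [rr_neg, rr_neg]
  by_cases h : Even i
  · have h1 : Even (2 * j - i) := (Nat.even_sub hi').2 (by simp [h])
    rw [if_pos h, if_pos h1, mul_one]
  · rw [if_neg h, zero_mul]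

theorem ss_neg_odd (j : ℕ) : ss (-1) (2 * j + 1) = 0 := by
  unfold ss
  refine sum_eq_zero fun i hi => ?_
  have hi' : i ≤ 2 * j + 1 := by have := mem_range.1 hi; omega
  rw [rr_neg, rr_neg]
  by_cases h : Even i
  · have h1 : ¬ Even (2 * j + 1 - i) := by
      rw [Nat.even_sub hi']
      intro h2
      have h3 : Odd (2 * j + 1) := ⟨j, rfl⟩
      exact (Nat.not_even_iff_odd.2 h3) (h2.2 h)
    rw [if_neg h1, mul_zero]
  · rw [if_neg h, zero_mul]

/-! ### prime powers -/

theorem odd_pow {p : ℕ} (hp : p.Prime) (hp2 : p % 2 = 1) (k : ℕ) :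
    H (p ^ k) = if k = 0 then 1 else if k = 2 then -1 else 0 := by
  have h : p ^ k % 2 = 1 := by simp [Nat.pow_mod, hp2]
  rw [H_apply, hz_odd h, B_prime_pow hp]

theorem two_pow (k : ℕ) : H (2 ^ k) = if k = 0 then 1 else if k = 1 then -1 else 0 := by
  rw [H_apply]
  rcases k with _ | _ | k
  · rw [pow_zero, hz_odd (by norm_num), B_one]
    simp
  · rw [zero_add, pow_one, hz_two (by norm_num)]
    norm_num
    exact B_one
  · rw [hz_four (by rw [pow_succ, pow_succ]; omega)]
    simp

theorem sum_odd (f : ℕ → ℤ) (k : ℕ) :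
    ∑ i ∈ range (k + 1), (if i = 0 then (1 : ℤ) else if i = 2 then -1 else 0) * f (k - i) =
      f k - if 2 ≤ k then f (k - 2) else 0 := by
  rcases k with _ | _ | k
  · simp
  · simp [sum_range_succ]
  · rw [if_pos (by omega), sum_range_succ', sum_range_succ', sum_range_succ']
    have h : ∑ i ∈ range k, (if i + 1 + 1 + 1 = 0 then (1 : ℤ) else
        if i + 1 + 1 + 1 = 2 then -1 else 0) * f (k + 2 - (i + 1 + 1 + 1)) = 0 := by
      refine sum_eq_zero fun i _ => ?_
      rw [if_neg (by omega), if_neg (by omega), zero_mul]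
    rw [h]
    simp
    ring

theorem sum_two (f : ℕ → ℤ) (k : ℕ) :
    ∑ i ∈ range (k + 1), (if i = 0 then (1 : ℤ) else if i = 1 then -1 else 0) * f (k - i) =
      f k - if 1 ≤ k then f (k - 1) else 0 := by
  rcases k with _ | k
  · simp
  · rw [if_pos (by omega), sum_range_succ', sum_range_succ']
    have h : ∑ i ∈ range k, (if i + 1 + 1 = 0 then (1 : ℤ) else
        if i + 1 + 1 = 1 then -1 else 0) * f (k + 1 - (i + 1 + 1)) = 0 := by
      refine sum_eq_zero fun i _ => ?_
      rw [if_neg (by omega), if_neg (by omega), zero_mul]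
    rw [h]
    simp
    ring

theorem chi_cases {p : ℕ} (hp2 : p % 2 = 1) :
    ZMod.χ₄ (p : ZMod 4) = 1 ∨ ZMod.χ₄ (p : ZMod 4) = -1 := by
  rw [ZMod.χ₄_nat_eq_if_mod_four, if_neg (by omega)]
  split_ifs
  · exact Or.inl rfl
  · exact Or.inr rfl

theorem key : pmul R R = H * (R * R) := by
  rw [IsMultiplicative.eq_iff_eq_on_prime_powers _ (R_mult.pmul R_mult) _
    (H_mult.mul (R_mult.mul R_mult))]
  intro p k hp
  rw [pmul_apply, conv_prime_pow hp, R_prime_pow hp]
  have hS : ∀ i, (R * R) (p ^ i) = ss (ZMod.χ₄ (p : ZMod 4)) i := RR_prime_pow hp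
  rcases hp.eq_two_or_odd with h2 | h2
  · subst h2
    have hc : ZMod.χ₄ ((2 : ℕ) : ZMod 4) = 0 := by decide
    rw [hc] at hS ⊢
    have h3 : ∑ i ∈ range (k + 1), H (2 ^ i) * (R * R) (2 ^ (k - i)) =
        ∑ i ∈ range (k + 1), (if i = 0 then (1 : ℤ) else if i = 1 then -1 else 0) * ss 0 (k - i) :=
      sum_congr rfl fun i _ => by rw [two_pow, hS]
    rw [h3, sum_two (ss 0), rr_zero, ss_zero]
    split_ifs with h4
    · rw [ss_zero, Nat.cast_sub h4]
      push_cast
      ring
    · have : k = 0 := by omega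
      subst this
      simp
  · have h3 : ∑ i ∈ range (k + 1), H (p ^ i) * (R * R) (p ^ (k - i)) =
        ∑ i ∈ range (k + 1), (if i = 0 then (1 : ℤ) else if i = 2 then -1 else 0) *
          ss (ZMod.χ₄ (p : ZMod 4)) (k - i) :=
      sum_congr rfl fun i _ => by rw [odd_pow hp h2, hS]
    rw [h3, sum_odd]
    rcases chi_cases h2 with hc | hc
    · rw [hc, rr_one]
      have h6 := ss_one k
      split_ifs with h4
      · have h7 := ss_one (k - 2)
        rw [Nat.cast_sub h4] at h7
        push_cast at h7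
        have : 6 * (((k : ℤ) + 1) * (k + 1)) = 6 * (ss 1 k - ss 1 (k - 2)) := by
          rw [mul_sub, h6, h7]
          ring
        linarith
      · have h8 : k = 0 ∨ k = 1 := by omega
        rcases h8 with h8 | h8
        · subst h8
          simp at h6 ⊢
          linarith
        · subst h8
          simp at h6 ⊢
          linarith
    · rw [hc, rr_neg]
      rcases Nat.even_or_odd' k with ⟨j, hj | hj⟩
      · subst hj
        rw [if_pos ⟨j, by ring⟩, ss_neg_even]
        split_ifs with h4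
        · have e : 2 * j - 2 = 2 * (j - 1) := by omega
          rw [e, ss_neg_even, Nat.cast_sub (by omega)]
          push_cast
          ring
        · have : j = 0 := by omega
          subst this
          simp
      · subst hj
        rw [if_neg (by rw [Nat.not_even_iff_odd]; exact ⟨j, rfl⟩), ss_neg_odd]
        split_ifs with h4
        · have e : 2 * j + 1 - 2 = 2 * (j - 1) + 1 := by omega
          rw [e, ss_neg_odd]
          ring
        · ring

/-! ### the statement -/

open Pool.Agent.U581.LB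

theorem hh_eq (c : ℕ) : hh c = ((hz c : ℤ) : ℝ) := by
  unfold hh hz B
  by_cases h1 : c % 2 = 1
  · rw [if_pos h1, if_pos h1]
    split_ifs
    · rfl
    · simp
  · rw [if_neg h1, if_neg h1]
    by_cases h2 : c % 4 = 2
    · by_cases h3 : IsSquare (c / 2)
      · rw [if_pos ⟨h2, h3⟩, if_pos h2, if_pos h3]
        push_cast
        rfl
      · rw [if_neg (fun h => h3 h.2), if_pos h2, if_neg h3]
        simp
    · rw [if_neg (fun h => h2 h.1), if_neg h2]
      simp

theorem t_RS1J : S_RS1J := by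
  intro hJ n hn
  have hr : ∀ m : ℕ, 1 ≤ m → r0 m = ((R m : ℤ) : ℝ) := by
    intro m hm
    rw [hJ m hm, R_apply]
    push_cast
    rfl
  have h1 := congrArg (fun f : ArithmeticFunction ℤ => ((f n : ℤ) : ℝ)) key
  simp only [pmul_apply, ArithmeticFunction.mul_apply, Int.cast_mul, Int.cast_sum] at h1
  rw [hr n hn, sq, h1]
  refine sum_congr rfl fun x hx => ?_
  rw [Nat.mem_divisorsAntidiagonal] at hx
  have hx2 : x.2 ≠ 0 := by
    intro h0
    apply hx.2
    rw [← hx.1, h0, mul_zero]
  rw [H_apply, hh_eq]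
  congr 1
  refine sum_congr rfl fun y hy => ?_
  rw [Nat.mem_divisorsAntidiagonal] at hy
  have hy1 : y.1 ≠ 0 := by
    intro h0
    apply hy.2
    rw [← hy.1, h0, zero_mul]
  have hy2 : y.2 ≠ 0 := by
    intro h0
    apply hy.2
    rw [← hy.1, h0, mul_zero]
  rw [hr _ (by omega), hr _ (by omega)]

end Pool.Agent.U429.LB
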